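import Pool.Agent.V11152.CSd

/-!
# Pairwise cross-intersecting families of subspaces

The case `t = 1` of the problem, for every dimension `n`, every finite field and every number
`m` of families: the exact maximum of the sum of the sizes.
-/

set_option autoImplicit false

namespace Pool.Agent.Results.MP_f86d1f_co.CrossIntersecting

open Module Finset Pool.Agent.V11152.CS

variable {K V : Type} [Field K] [Finite K] [AddCommGroup V] [Module K V] [Module.Finite K V]

/-- the subspaces of dimension larger than half of the dimension of the space -/
def Hi (K V : Type) [Field K] [AddCommGroup V] [Module K V] : Set (Submodule K V) :=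
  {U | finrank K V < 2 * finrank K U}

lemma cnt_Hi (d : ℕ) : cnt (Hi K V) d = if finrank K V < 2 * d then NS K V d else 0 := by
  unfold cnt NS Hi
  split_ifs with h
  · congr 1
    ext U
    simp only [Set.mem_ofPred_eq]
    constructor
    · rintro ⟨_, h2⟩; exact h2
    · intro h2; exact ⟨by rw [h2]; exact h, h2⟩
  · have h3 : {U : Submodule K V | U ∈ {U : Submodule K V | finrank K V < 2 * finrank K U} ∧
        finrank K U = d} = ∅ := by
      ext U
      simp only [Set.mem_ofPred_eq, Set.mem_empty_iff_false, iff_false, not_and]
      intro h1 h2
      rw [h2] at h1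
      exact h h1
    rw [h3, Set.ncard_empty]

lemma card_Hi : (Hi K V).ncard = ∑ d ∈ H (finrank K V), gauss (Nat.card K) (finrank K V) d := by
  rw [ncard_eq, H, Finset.sum_filter]
  apply Finset.sum_congr rfl
  intro d hd
  rw [mem_range] at hd
  rw [cnt_Hi]
  split_ifs with h
  · exact NS_eq d (by omega)
  · rfl

omit [Finite K] in
lemma inter_pos {U W : Submodule K V} (h : finrank K V < finrank K U + finrank K W) :
    1 ≤ finrank K (U ⊓ W : Submodule K V) := by
  have h1 := Submodule.finrank_sup_add_finrank_inf_eq U W
  have h2 := Submodule.finrank_le (U ⊔ W)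
  omega

/-- the subspaces of half dimension that satisfy a condition `P` -/
def Mid (P : Submodule K V → Prop) : Set (Submodule K V) :=
  {U | 2 * finrank K U = finrank K V ∧ P U}

lemma card_union (P : Submodule K V → Prop) :
    (Hi K V ∪ Mid P).ncard = (Hi K V).ncard + (Mid P).ncard := by
  have : Finite (Submodule K V) := finSub
  refine Set.ncard_union_eq ?_ (Set.toFinite _) (Set.toFinite _)
  rw [Set.disjoint_left]
  intro U h1 h2
  simp only [Hi, Mid, Set.mem_ofPred_eq] at h1 h2
  omega

lemma card_Mid (P : Submodule K V → Prop) (k : ℕ) (hV : finrank K V = 2 * k) :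
    (Mid P).ncard = cnt {U : Submodule K V | P U} k := by
  unfold cnt Mid
  congr 1
  ext U
  simp only [Set.mem_ofPred_eq]
  constructor
  · rintro ⟨h1, h2⟩; exact ⟨h2, by omega⟩
  · rintro ⟨h1, h2⟩; exact ⟨by omega, h1⟩

lemma top_Hi (hn : 1 ≤ finrank K V) : (⊤ : Submodule K V) ∈ Hi K V := by
  simp only [Hi, Set.mem_ofPred_eq, finrank_top]
  omega

/-- **The maximum of the sum of the sizes of pairwise cross-intersecting families.** -/
theorem result (K V : Type) [Field K] [Finite K] [AddCommGroup V] [Module K V]
    [Module.Finite K V] (n m : ℕ) (hV : finrank K V = n) (hn : 1 ≤ n) (hm : 2 ≤ m) :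
    IsGreatest {s : ℕ | ∃ A : Fin m → Set (Submodule K V), (∀ i, (A i).Nonempty) ∧
      (∀ i j, i ≠ j → ∀ U ∈ A i, ∀ W ∈ A j, 1 ≤ finrank K (U ⊓ W : Submodule K V)) ∧
      s = ∑ i, (A i).ncard}
      (m * ∑ d ∈ (range (n + 1)).filter (fun d => n < 2 * d), gauss (Nat.card K) n d +
        if Even n then
          max (gauss (Nat.card K) n (n / 2))
            (m * (gauss (Nat.card K) n (n / 2) / (Nat.card K ^ (n / 2) + 1)))
        else 0) := by
  classical
  subst hV
  constructor
  · by_cases he : Even (finrank K V)
    · rw [if_pos he]
      obtain ⟨k, hk⟩ := he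
      have hV : finrank K V = 2 * k := by omega
      have hk2 : finrank K V / 2 = k := by omega
      have hk1 : 1 ≤ k := by omega
      obtain ⟨v, hv⟩ := exists_nz (K := K) (V := V) hn
      have h4 := point_count k hk1 hV v hv
      have h5 := NS_eq (K := K) (V := V) k (by omega)
      rw [hk2, ← h5]
      have hdiv : NS K V k / (Nat.card K ^ k + 1) = cnt {U : Submodule K V | v ∈ U} k := by
        rw [← h4, Nat.mul_div_cancel _ (by omega)]
      rw [hdiv]
      rcases le_total (m * cnt {U : Submodule K V | v ∈ U} k) (NS K V k) with hle | hle
      · rw [max_eq_left hle]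
        obtain ⟨r, rfl⟩ : ∃ r, m = r + 1 := ⟨m - 1, by omega⟩
        refine ⟨fun i => if i = 0 then Hi K V ∪ Mid (fun _ => True) else Hi K V, ?_, ?_, ?_⟩
        · intro i
          refine ⟨⊤, ?_⟩
          dsimp only
          split_ifs
          · exact Or.inl (top_Hi hn)
          · exact top_Hi hn
        · intro i j hij U hU W hW
          apply inter_pos
          dsimp only at hU hW
          split_ifs at hU hW with h1 h2 h2
          · exact absurd (h1.trans h2.symm) hij
          · rcases hU with hU | hU <;>
            simp only [Hi, Mid, Set.mem_ofPred_eq] at hU hW <;> omega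
          · rcases hW with hW | hW <;>
            simp only [Hi, Mid, Set.mem_ofPred_eq] at hU hW <;> omega
          · simp only [Hi, Set.mem_ofPred_eq] at hU hW; omega
        · have h6 : ∀ i : Fin (r + 1), (if i = 0 then Hi K V ∪ Mid (fun _ => True)
              else Hi K V : Set (Submodule K V)).ncard =
              (Hi K V).ncard + if i = 0 then NS K V k else 0 := by
            intro i
            split_ifs
            · rw [card_union, card_Mid _ k hV]
              congr 1
              unfold cnt NS
              congr 1
              ext U
              simp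
            · rw [add_zero]
          simp only [h6]
          rw [Finset.sum_add_distrib, Finset.sum_const, card_univ, Fintype.card_fin, smul_eq_mul,
            card_Hi]
          simp only [Finset.sum_ite_eq', mem_univ, if_true]
          rfl
      · rw [max_eq_right hle]
        refine ⟨fun _ => Hi K V ∪ Mid (fun U => v ∈ U), ?_, ?_, ?_⟩
        · intro i
          exact ⟨⊤, Or.inl (top_Hi hn)⟩
        · intro i j hij U hU W hW
          rcases hU with hU | hU
          · apply inter_pos
            rcases hW with hW | hW <;>
            simp only [Hi, Mid, Set.mem_ofPred_eq] at hU hW <;> omega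
          · rcases hW with hW | hW
            · apply inter_pos
              simp only [Hi, Mid, Set.mem_ofPred_eq] at hU hW
              omega
            · exact finrank_pos_of_mem (U := U ⊓ W) ⟨hU.2, hW.2⟩ hv
        · rw [Finset.sum_const, card_univ, Fintype.card_fin, smul_eq_mul, card_union,
            card_Mid _ k hV, card_Hi, mul_add]
          rfl
    · rw [if_neg he]
      refine ⟨fun _ => Hi K V, fun _ => ⟨⊤, top_Hi hn⟩, ?_, ?_⟩
      · intro i j hij U hU W hW
        apply inter_pos
        simp only [Hi, Set.mem_ofPred_eq] at hU hW
        omega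
      · rw [Finset.sum_const, card_univ, Fintype.card_fin, smul_eq_mul, card_Hi, add_zero]
        rfl
  · rintro s ⟨A, _, hA, rfl⟩
    exact upper hm hn A hA

end Pool.Agent.Results.MP_f86d1f_co.CrossIntersecting
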