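import Pool.Agent.V11152.CSj
import Pool.Agent.V11152.CSk

/-!
# Pairwise cross `t`-intersecting families of subspaces

For all `n ≥ t ≥ 2` the exact maximum of the sum of the sizes of `m` non-empty pairwise cross
`t`-intersecting families, whenever `m ≤ P`, where `P = q ^ (n + t - 2)` if `n + t` is even and
`P = q ^ ((n + t - 1) / 2)` if `n + t` is odd. If `n + t` is even and `(t - 2) ^ 2 ≤ 2 * n` or
`S + P ≤ (P + 1) * M`, then for all `m`.
-/

set_option autoImplicit false

namespace Pool.Agent.Results.MP_f86d1f_co.GeneralT

open Module Finset Pool.Agent.V11152.CS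

/-- **The maximum of the sum of the sizes of pairwise cross `t`-intersecting families.** -/
theorem result (K V : Type) [Field K] [Finite K] [AddCommGroup V] [Module K V]
    [Module.Finite K V] (n t m q S M z P : ℕ) (hV : finrank K V = n) (hq : q = Nat.card K)
    (ht : 2 ≤ t) (htn : t ≤ n) (hm : 2 ≤ m)
    (hS : S = ∑ d ∈ Icc t n, gauss q n d)
    (hM : M = ∑ d ∈ Icc ((n + t + 1) / 2) n, gauss q n d)
    (hz : z = if Even (n + t) then 0 else gauss q n ((n + t) / 2))
    (hP : P = if Even (n + t) then q ^ (n + t - 2) else q ^ ((n + t - 1) / 2))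
    (hc : m ≤ P ∨ (Even (n + t) ∧ ((t - 2) ^ 2 ≤ 2 * n ∨ S + P ≤ (P + 1) * M))) :
    IsGreatest {s : ℕ | ∃ A : Fin m → Set (Submodule K V), (∀ i, (A i).Nonempty) ∧
      (∀ i j, i ≠ j → ∀ U ∈ A i, ∀ W ∈ A j, t ≤ finrank K (U ⊓ W : Submodule K V)) ∧
      s = ∑ i, (A i).ncard}
      (max (S + (m - 1)) (m * M + z)) := by
  classical
  obtain ⟨τ, rfl⟩ : ∃ τ, t = τ + 1 := ⟨t - 1, by omega⟩
  obtain ⟨b, hb0⟩ : ∃ b, b = (n - (τ + 1)) / 2 := ⟨_, rfl⟩
  obtain ⟨B, hb⟩ : ∃ B, n = τ + (B + (b + 1)) := ⟨n - (τ + b + 1), by omega⟩
  have hbB : b ≤ B := by omega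
  have hBb : B ≤ b + 1 := by omega
  have hτ : 1 ≤ τ := by omega
  have hBeven : Even (n + (τ + 1)) → B = b := by
    rintro ⟨r, hr⟩
    omega
  have hBodd : ¬ Even (n + (τ + 1)) → B = b + 1 := by
    intro he
    rw [Nat.not_even_iff_odd] at he
    obtain ⟨r, hr⟩ := he
    omega
  have hPe : P = q ^ (ex τ b B) := by
    rw [hP]
    unfold ex
    by_cases he : Even (n + (τ + 1))
    · have := hBeven he
      rw [if_pos he, if_pos this]
      congr 1
      omega
    · have := hBodd he
      rw [if_neg he, if_neg (by omega)]
      congr 1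
      omega
  have hb2 : (n + (τ + 1) + 1) / 2 = τ + B + 1 := by omega
  rw [hb2] at hM
  have hS' : S = ∑ d ∈ Icc (τ + 1) n, NS K V d := by
    rw [hS]
    apply Finset.sum_congr rfl
    intro d hd
    rw [mem_Icc] at hd
    rw [hq, ← hV]
    exact (NS_eq d (by omega)).symm
  have hM' : M = ∑ d ∈ Icc (τ + B + 1) n, NS K V d := by
    rw [hM]
    apply Finset.sum_congr rfl
    intro d hd
    rw [mem_Icc] at hd
    rw [hq, ← hV]
    exact (NS_eq d (by omega)).symm
  have hz' : z = ∑ c ∈ Icc (b + 1) B, NS K V (τ + c) := by
    by_cases he : Even (n + (τ + 1))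
    · have hBb' : B = b := hBeven he
      rw [hz, if_pos he, hBb', Finset.Icc_eq_empty (by omega), Finset.sum_empty]
    · have hBb' : B = b + 1 := hBodd he
      rw [hz, if_neg he, hBb', Finset.Icc_self, Finset.sum_singleton]
      have h1 : (n + (τ + 1)) / 2 = τ + (b + 1) := by omega
      rw [h1, hq, ← hV]
      exact (NS_eq _ (by omega)).symm
  have hqpos : 1 < q := by rw [hq]; exact Finite.one_lt_card
  have hfin : Finite (Submodule K V) := finSub
  -- splitting the layers
  have hshift : ∀ a, ∑ c ∈ Icc a B, NS K V (τ + c) = ∑ d ∈ Icc (τ + a) (τ + B), NS K V d := by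
    intro a
    apply Finset.sum_nbij' (fun c => τ + c) (fun d => d - τ)
    · intro c hc
      rw [mem_Icc] at hc ⊢
      omega
    · intro c hc
      rw [mem_Icc] at hc ⊢
      omega
    · intro c hc
      omega
    · intro c hc
      rw [mem_Icc] at hc
      omega
    · intro c hc
      rfl
  have hsplit : ∀ a, a ≤ B + 1 → ∑ d ∈ Icc (τ + a) n, NS K V d =
      ∑ c ∈ Icc a B, NS K V (τ + c) + M := by
    intro a ha
    rw [hM', hshift a, ← Finset.sum_union]
    · apply Finset.sum_congr _ fun _ _ => rfl
      ext d
      rw [mem_union, mem_Icc, mem_Icc, mem_Icc]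
      omega
    · rw [Finset.disjoint_left]
      intro d h4 h5
      rw [mem_Icc] at h4 h5
      omega
  constructor
  · obtain ⟨r, rfl⟩ : ∃ r, m = r + 1 := ⟨m - 1, by omega⟩
    rcases le_total (S + (r + 1 - 1)) ((r + 1) * M + z) with h | h
    · rw [max_eq_right h]
      refine ⟨fun i => if i = 0 then {U : Submodule K V | τ + b + 1 ≤ finrank K U} else
        {U : Submodule K V | τ + B + 1 ≤ finrank K U}, ?_, ?_, ?_⟩
      · intro i
        refine ⟨⊤, ?_⟩
        dsimp only
        split_ifs
        · simp only [Set.mem_ofPred_eq, finrank_top]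
          omega
        · simp only [Set.mem_ofPred_eq, finrank_top]
          omega
      · intro i j hij U hU W hW
        have h1 := Submodule.finrank_sup_add_finrank_inf_eq U W
        have h2 := Submodule.finrank_le (U ⊔ W)
        dsimp only at hU hW
        split_ifs at hU hW with h3 h4 h4
        · exact absurd (h3.trans h4.symm) hij
        · simp only [Set.mem_ofPred_eq] at hU hW
          omega
        · simp only [Set.mem_ofPred_eq] at hU hW
          omega
        · simp only [Set.mem_ofPred_eq] at hU hW
          omega
      · rw [Fin.sum_univ_succ]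
        have h6 : ∀ i : Fin r, (if i.succ = 0 then {U : Submodule K V | τ + b + 1 ≤ finrank K U}
            else {U : Submodule K V | τ + B + 1 ≤ finrank K U} :
              Set (Submodule K V)).ncard = M := by
          intro i
          rw [if_neg (Fin.succ_ne_zero i), card_ge, hM', hV]
        have h7 : (if (0 : Fin (r + 1)) = 0 then {U : Submodule K V | τ + b + 1 ≤ finrank K U}
            else {U : Submodule K V | τ + B + 1 ≤ finrank K U} :
              Set (Submodule K V)).ncard = z + M := by
          rw [if_pos rfl, card_ge, hz', hV, ← hsplit (b + 1) (by omega)]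
          rfl
        rw [Finset.sum_congr rfl (fun i _ => h6 i)]
        dsimp only
        rw [h7, Finset.sum_const, card_univ, Fintype.card_fin, smul_eq_mul]
        ring
    · rw [max_eq_left h]
      refine ⟨fun i => if i = 0 then {U : Submodule K V | τ + 1 ≤ finrank K U} else {⊤},
        ?_, ?_, ?_⟩
      · intro i
        refine ⟨⊤, ?_⟩
        dsimp only
        split_ifs
        · simp only [Set.mem_ofPred_eq, finrank_top]
          omega
        · exact Set.mem_singleton _
      · intro i j hij U hU W hW
        dsimp only at hU hW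
        split_ifs at hU hW with h1 h2 h2
        · exact absurd (h1.trans h2.symm) hij
        · rw [Set.mem_singleton_iff] at hW
          rw [hW, inf_top_eq]
          exact hU
        · rw [Set.mem_singleton_iff] at hU
          rw [hU, top_inf_eq]
          exact hW
        · rw [Set.mem_singleton_iff] at hU hW
          rw [hU, hW, inf_top_eq, finrank_top]
          omega
      · rw [Fin.sum_univ_succ]
        have h6 : ∀ i : Fin r, (if i.succ = 0 then {U : Submodule K V | τ + 1 ≤ finrank K U}
            else {⊤} : Set (Submodule K V)).ncard = 1 := by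
          intro i
          rw [if_neg (Fin.succ_ne_zero i), Set.ncard_singleton]
        have h7 : (if (0 : Fin (r + 1)) = 0 then {U : Submodule K V | τ + 1 ≤ finrank K U}
            else {⊤} : Set (Submodule K V)).ncard = S := by
          rw [if_pos rfl, card_ge, hS', hV]
        rw [Finset.sum_congr rfl (fun i _ => h6 i)]
        dsimp only
        rw [h7, Finset.sum_const, card_univ, Fintype.card_fin, smul_eq_mul, mul_one,
          Nat.add_sub_cancel]
  · rintro s ⟨A, hne, hA, rfl⟩
    have hL : Lx (fun c => (NS K V (τ + c) : ℝ)) B 1 = (S : ℝ) - M := by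
      have h1 : S = ∑ c ∈ Icc 1 B, NS K V (τ + c) + M := by
        rw [hS', hsplit 1 (by omega)]
      rw [h1]
      unfold Lx
      push_cast
      ring
    have hLz : Lx (fun c => (NS K V (τ + c) : ℝ)) B (b + 1) = (z : ℝ) := by
      rw [hz']
      unfold Lx
      push_cast
      rfl
    have hY : Yf (fun c => (NS K V (finrank K V - c) : ℝ)) (b + 1) = (M : ℝ) := by
      rw [hM', Nat.cast_sum]
      unfold Yf
      rw [hV]
      apply Finset.sum_nbij' (fun c => n - c) (fun d => n - d)
      · intro c hc
        rw [mem_range] at hc
        rw [mem_Icc]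
        omega
      · intro c hc
        rw [mem_Icc] at hc
        rw [mem_range]
        omega
      · intro c hc
        rw [mem_range] at hc
        omega
      · intro c hc
        rw [mem_Icc] at hc
        omega
      · intro c hc
        rfl
    have hM1 : 1 ≤ M := by
      rw [hM']
      have h1 : NS K V n ≤ ∑ d ∈ Icc (τ + B + 1) n, NS K V d :=
        Finset.single_le_sum (f := fun d => NS K V d) (fun _ _ => Nat.zero_le _)
          (by rw [mem_Icc]; omega)
      have h2 : 0 < NS K V n := NS_pos n (by omega)
      omega
    have hzSM : (z : ℝ) ≤ (S : ℝ) - M := by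
      rw [← hL, ← hLz]
      unfold Lx
      apply Finset.sum_le_sum_of_subset_of_nonneg
      · intro c hc
        rw [mem_Icc] at hc ⊢
        omega
      · intro c _ _
        exact Nat.cast_nonneg _
    have hz0 : (0 : ℝ) ≤ z := Nat.cast_nonneg _
    have hmR : (2 : ℝ) ≤ m := by exact_mod_cast hm
    have hMR : (1 : ℝ) ≤ M := by exact_mod_cast hM1
    have hX : ((max (S + (m - 1)) (m * M + z) : ℕ) : ℝ) =
        max ((S : ℝ) + (m - 1)) (m * M + z) := by
      rw [Nat.cast_max, Nat.cast_add, Nat.cast_add, Nat.cast_mul, Nat.cast_sub (by omega),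
        Nat.cast_one]
    have hPR : (P : ℝ) = (Nat.card K : ℝ) ^ (ex τ b B) := by
      rw [hPe, hq]
      push_cast
      rfl
    have hP1 : (1 : ℝ) ≤ P := by
      rw [hPR]
      have : (1 : ℝ) ≤ (Nat.card K : ℝ) := by
        rw [← hq]
        exact_mod_cast hqpos.le
      exact one_le_pow₀ this
    have hPpos : (0 : ℝ) < P := by linarith
    -- the case distinction
    have hc' : (m : ℝ) ≤ P ∨ ((z : ℝ) = 0 ∧ (S : ℝ) + P ≤ (P + 1) * M) := by
      rcases hc with hc | ⟨he, hc⟩
      · left
        exact_mod_cast hc
      · right
        constructor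
        · rw [hz, if_pos he, Nat.cast_zero]
        · rcases hc with hc | hc
          · have hBb' : B = b := hBeven he
            have hVb : finrank K V = τ + (b + (b + 1)) := by omega
            have hc2 : (τ - 1) ^ 2 ≤ 2 * (τ + (b + (b + 1))) := by
              have e1 : τ + 1 - 2 = τ - 1 := by omega
              rw [e1] at hc
              have e2 : τ + (b + (b + 1)) = n := by omega
              rw [e2]
              exact hc
            have hP2 : (P : ℝ) = (Nat.card K : ℝ) ^ (2 * (τ + b)) := by
              rw [hPR]
              unfold ex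
              rw [if_pos hBb']
            rcases Nat.eq_zero_or_pos b with hb00 | hbpos
            · have e3 : Lx (fun c => (NS K V (τ + c) : ℝ)) B 1 = 0 := by
                unfold Lx
                rw [hBb', hb00, Finset.Icc_eq_empty (by omega), Finset.sum_empty]
              rw [hL] at e3
              nlinarith
            · have e3 := sum_bound (K := K) (V := V) τ b hτ hVb hc2 hbpos
              have e4 : Lx (fun c => (NS K V (τ + c) : ℝ)) B 1 =
                  ∑ c ∈ Icc 1 b, (NS K V (τ + c) : ℝ) := by
                unfold Lx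
                rw [hBb']
              rw [← e4, hL, ← hP2] at e3
              have e5 : (NS K V b : ℝ) + 1 ≤ M := by
                rw [← hY]
                unfold Yf
                obtain ⟨b', rfl⟩ : ∃ b', b = b' + 1 := ⟨b - 1, by omega⟩
                rw [Finset.sum_range_succ, Finset.sum_range_succ' _ b', Nat.sub_zero, NS_top,
                  Nat.cast_one, NS_symm (finrank K V - (b' + 1)) (b' + 1) (by omega)]
                have e6 : (0 : ℝ) ≤ ∑ c ∈ range b', (NS K V (finrank K V - (c + 1)) : ℝ) :=
                  Finset.sum_nonneg (fun c _ => Nat.cast_nonneg _)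
                linarith
              have e7 : (P : ℝ) * NS K V b ≤ P * (M - 1) :=
                mul_le_mul_of_nonneg_left (by linarith) hPpos.le
              linarith
          · exact_mod_cast hc
    have hmain := upperT2 (K := K) (V := V) τ b B m hbB hBb hτ hm (by rw [hV, hb]) A hne hA
      (max ((S : ℝ) + (m - 1)) (m * M + z)) (by
        rw [hL, hY]
        refine le_trans ?_ (le_max_left _ _)
        linarith) (by
        rw [hLz, hY]
        refine le_trans ?_ (le_max_right _ _)
        linarith) (by
        rw [hL, ← hPR]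
        rcases hc' with h1 | ⟨hz1, h1⟩
        · refine le_trans ?_ (le_max_left _ _)
          have h2 : (m : ℝ) / P ≤ 1 := by
            rw [div_le_one hPpos]
            exact h1
          nlinarith
        · refine le_trans ?_ (le_max_right _ _)
          have h2 : ((S : ℝ) - M) / P ≤ M - 1 := by
            rw [div_le_iff₀ hPpos]
            linarith
          have h3 : (m : ℝ) / P * ((S : ℝ) - M) = m * (((S : ℝ) - M) / P) := by ring
          rw [h3]
          nlinarith) (by
        rw [hL, hLz, hY, ← hPR]
        refine le_trans ?_ (le_max_left _ _)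
        have h5 : 1 / P * ((S : ℝ) - M) + ((m : ℝ) - 1) / P * z ≤ (S : ℝ) - M := by
          rcases hc' with h1 | ⟨hz1, h1⟩
          · have h2 : (m : ℝ) / P ≤ 1 := by
              rw [div_le_one hPpos]
              exact h1
            have h3 : ((m : ℝ) - 1) / P * z ≤ ((m : ℝ) - 1) / P * ((S : ℝ) - M) :=
              mul_le_mul_of_nonneg_left hzSM (div_nonneg (by linarith) hPpos.le)
            have h4 : 1 / P * ((S : ℝ) - M) + ((m : ℝ) - 1) / P * ((S : ℝ) - M) =
              (m : ℝ) / P * ((S : ℝ) - M) := by ring
            nlinarith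
          · rw [hz1, mul_zero, add_zero]
            have h2 : (1 : ℝ) / (P : ℝ) ≤ 1 := by
              rw [div_le_one hPpos]
              exact hP1
            nlinarith
        linarith) (by
        rw [hLz, hY, ← hPR]
        refine le_trans ?_ (le_max_right _ _)
        rcases hc' with h1 | ⟨hz1, h1⟩
        · have h2 : (m : ℝ) / P ≤ 1 := by
            rw [div_le_one hPpos]
            exact h1
          nlinarith
        · rw [hz1, mul_zero]
          linarith)
    rw [← hX, ← Nat.cast_sum] at hmain
    exact_mod_cast hmain

end Pool.Agent.Results.MP_f86d1f_co.GeneralT
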